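import Mathlib
import Pool.Agent.Q133.PermQ

set_option autoImplicit false

/-!
# The permanental Q-polynomial is not a complete graph invariant (Q1, disproof)
-/

namespace Pool.Agent.Results.MP_5909b9_co.NotComplete

open Q133.PermQ

/-- There are two non-isomorphic graphs `G`, `H` on a common vertex set of `9` elements with
`Q(G) = Q(H)`. -/
theorem result :
    ∃ (V : Type) (_ : Fintype V) (_ : DecidableEq V) (G H : SimpleGraph V)
      (_ : DecidableRel G.Adj) (_ : DecidableRel H.Adj),
      Fintype.card V = 9 ∧ Q G = Q H ∧ ¬ Nonempty (G ≃g H) := by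
  refine ⟨Option (ZMod 8), inferInstance, inferInstance, cone S1, cone S2, inferInstance,
    inferInstance, ?_, Q_eq, ?_⟩
  · simp [ZMod.card]
  · rintro ⟨φ⟩
    exact not_diamond2 (diamond_iso φ diamond1)

end Pool.Agent.Results.MP_5909b9_co.NotComplete
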